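import Pool.Agent.SKQ.Kit

/-!
# Row DG2: the degree is one
-/

set_option autoImplicit false

namespace Pool.Agent.SKQ.H53

open Metric Set Filter Topology MeasureTheory
open scoped ENNReal
open Helper22QC Pool.Agent.SKQ

variable {n : ℕ}

/-! ### the coordinates of `f - L` -/

/-- the function `(y, z) ↦ z i - (L y) i` -/
noncomputable def ps (L : Mt n) (i : Fin n) (p : E n × E n) : ℝ := p.2 i - (L p.1) i

/-- the same as a linear map -/
noncomputable def psL (L : Mt n) (i : Fin n) : E n × E n →L[ℝ] ℝ :=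
  (EuclideanSpace.proj i : E n →L[ℝ] ℝ).comp
    (ContinuousLinearMap.snd ℝ (E n) (E n) - L.comp (ContinuousLinearMap.fst ℝ (E n) (E n)))

theorem ps_eq (L : Mt n) (i : Fin n) : ps L i = psL L i := by
  funext p
  simp [ps, psL]

theorem contDiff_ps (L : Mt n) (i : Fin n) : ContDiff ℝ (⊤ : ℕ∞) (ps L i) := by
  rw [ps_eq]
  exact (psL L i).contDiff

theorem norm_grc_ps (L : Mt n) (i : Fin n) (f : E n → E n) (F : E n → Mt n) (y : E n) :
    ‖grc (ps L i) f F y‖ ≤ ‖F y - L‖ := by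
  unfold grc
  rw [norm_gr, ps_eq, (psL L i).fderiv]
  refine ContinuousLinearMap.opNorm_le_bound _ (norm_nonneg _) fun v => ?_
  have h1 : ((psL L i).comp ((ContinuousLinearMap.id ℝ (E n)).prod (F y))) v =
      ((F y - L) v) i := by
    simp [psL]
  rw [h1, Real.norm_eq_abs]
  exact (abs_coord_le _ i).trans ((F y - L).le_opNorm v)

theorem aps_ps (chr : CHRStmt) (hn : 1 ≤ n) {C : Set (E n)} (hC : IsCompact C) {f : E n → E n}
    {F : E n → Mt n} (h : ApV C f F) (L : Mt n) (i : Fin n) :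
    ApS C (fun y => f y i - (L y) i) (grc (ps L i) f F) :=
  chr n C f F (ps L i) hn hC h (contDiff_ps L i)

/-! ### volumes and elementary inequalities -/

theorem vol_cube_le (c : E n) {t : ℝ} (ht : 0 ≤ t) :
    volume.real (cube c t) ≤ (√n ^ n * volume.real (ball (0 : E n) 1)) * t ^ n := by
  have h1 : volume.real (cube c t) ≤ volume.real (closedBall c (√n * t)) :=
    measureReal_mono (cube_subset_closedBall c ht) (by
      exact (isCompact_closedBall c _).measure_lt_top.ne)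
  refine h1.trans ?_
  have h2 : volume (closedBall c (√n * t)) =
      ENNReal.ofReal ((√n * t) ^ n) * volume (ball (0 : E n) 1) := by
    rw [Measure.addHaar_closedBall volume c (by positivity), finrank_euclideanSpace_fin]
  rw [measureReal_def, h2, ENNReal.toReal_mul, ENNReal.toReal_ofReal (by positivity), mul_pow,
    measureReal_def]
  apply le_of_eq
  ring

theorem le_add_pow (hn : 1 ≤ n) {x e : ℝ} (hx : 0 ≤ x) (he : 0 < e) :
    x ≤ e + (e ^ (n - 1))⁻¹ * x ^ n := by
  by_cases h : x ≤ e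
  · have : 0 ≤ (e ^ (n - 1))⁻¹ * x ^ n := by positivity
    linarith
  · have h1 : e ≤ x := (not_le.1 h).le
    have h2 : e ^ (n - 1) ≤ x ^ (n - 1) := pow_le_pow_left₀ he.le h1 _
    have h3 : x ^ n = x ^ (n - 1) * x := by
      rw [← pow_succ, Nat.sub_add_cancel hn]
    have h4 : x ≤ (e ^ (n - 1))⁻¹ * x ^ n := by
      rw [h3, ← mul_assoc]
      have h5 : 1 ≤ (e ^ (n - 1))⁻¹ * x ^ (n - 1) := by
        rw [← div_eq_inv_mul, le_div_iff₀ (by positivity), one_mul]
        exact h2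
      nlinarith
    linarith

theorem sum_pow_bound (hn : 1 ≤ n) {x A : ℝ} (hx : 0 ≤ x) (hA : 0 ≤ A) :
    (A + x) ^ (n - 1) * x ≤ 2 ^ (n - 1) * (A ^ (n - 1) * x + x ^ n) := by
  have h3 : x ^ n = x ^ (n - 1) * x := by
    rw [← pow_succ, Nat.sub_add_cancel hn]
  have h1 : (A + x) ^ (n - 1) ≤ 2 ^ (n - 1) * (A ^ (n - 1) + x ^ (n - 1)) := by
    rcases le_total A x with h | h
    · calc (A + x) ^ (n - 1) ≤ (2 * x) ^ (n - 1) := pow_le_pow_left₀ (by positivity) (by linarith) _
        _ = 2 ^ (n - 1) * x ^ (n - 1) := mul_pow _ _ _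
        _ ≤ 2 ^ (n - 1) * (A ^ (n - 1) + x ^ (n - 1)) := by
            have : 0 ≤ A ^ (n - 1) := by positivity
            refine mul_le_mul_of_nonneg_left (by linarith) (by positivity)
    · calc (A + x) ^ (n - 1) ≤ (2 * A) ^ (n - 1) := pow_le_pow_left₀ (by positivity) (by linarith) _
        _ = 2 ^ (n - 1) * A ^ (n - 1) := mul_pow _ _ _
        _ ≤ 2 ^ (n - 1) * (A ^ (n - 1) + x ^ (n - 1)) := by
            have : 0 ≤ x ^ (n - 1) := by positivity
            refine mul_le_mul_of_nonneg_left (by linarith) (by positivity)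
  calc (A + x) ^ (n - 1) * x ≤ 2 ^ (n - 1) * (A ^ (n - 1) + x ^ (n - 1)) * x :=
        mul_le_mul_of_nonneg_right h1 hx
    _ = 2 ^ (n - 1) * (A ^ (n - 1) * x + x ^ n) := by rw [h3]; ring

theorem norm_le_sum_abs (v : E n) : ‖v‖ ≤ ∑ i, |v i| := by
  have h1 : v = ∑ i, EuclideanSpace.single i (v i) := by
    ext j
    simp [Finset.sum_apply, Pi.single_apply]
  calc ‖v‖ = ‖∑ i, EuclideanSpace.single i (v i)‖ := by rw [← h1]
    _ ≤ ∑ i, ‖EuclideanSpace.single i (v i)‖ := norm_sum_le _ _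
    _ = ∑ i, |v i| := by simp

/-! ### points of the boundary of a cube -/

theorem single_mem_bcube (hn : 0 < n) (c : E n) {t s : ℝ} (ht : 0 ≤ t) (hs : |s| = t) :
    c + EuclideanSpace.single (⟨0, hn⟩ : Fin n) s ∈ bcube c t := by
  constructor
  · intro i
    by_cases hi : i = ⟨0, hn⟩
    · subst hi
      simp [hs]
    · simp [hi, ht]
  · exact ⟨⟨0, hn⟩, by simp [hs]⟩

/-! ### the open cube -/

theorem isOpen_ocube (c : E n) (t : ℝ) : IsOpen {y : E n | ∀ i, |y i - c i| < t} := by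
  have : {y : E n | ∀ i, |y i - c i| < t} = ⋂ i, {y : E n | |y i - c i| < t} := by
    ext y; simp
  rw [this]
  refine isOpen_iInter_of_finite fun i => isOpen_lt ?_ continuous_const
  fun_prop

theorem cube_sub (c : E n) (t : ℝ) {y : E n} (hy : y ∈ cube c t) (hb : y ∉ bcube c t) :
    ∀ i, |y i - c i| < t := by
  intro i
  refine lt_of_le_of_ne (hy i) fun h => hb ⟨hy, i, h⟩

/-! ### the test function -/

/-- a tent -/
noncomputable def tn (ρ : ℝ) (z : E n) : ℝ := max 0 (ρ - ‖z‖)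

theorem tn_nonneg (ρ : ℝ) (z : E n) : 0 ≤ tn ρ z := le_max_left _ _

theorem tn_le {ρ : ℝ} (hρ : 0 ≤ ρ) (z : E n) : tn ρ z ≤ ρ :=
  max_le hρ (by linarith [norm_nonneg z])

theorem tn_lip (ρ : ℝ) (z z' : E n) : |tn ρ z - tn ρ z'| ≤ ‖z - z'‖ := by
  unfold tn
  rw [max_comm 0, max_comm 0]
  refine (abs_max_sub_max_le_abs (ρ - ‖z‖) (ρ - ‖z'‖) 0).trans ?_
  have h1 : ρ - ‖z‖ - (ρ - ‖z'‖) = ‖z'‖ - ‖z‖ := by ring
  rw [h1, ← norm_sub_rev z' z]
  exact abs_norm_sub_norm_le z' z

theorem tn_ne {ρ : ℝ} {z : E n} (h : tn ρ z ≠ 0) : ‖z‖ < ρ := by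
  by_contra hc
  exact h (max_eq_left (by linarith))

theorem continuous_tn (ρ : ℝ) : Continuous (tn ρ : E n → ℝ) := by
  unfold tn; fun_prop

theorem tn_int {ρ : ℝ} (hρ : 0 < ρ) : 0 < ∫ z : E n, tn ρ z := by
  have hc : HasCompactSupport (tn ρ : E n → ℝ) := by
    refine HasCompactSupport.intro (isCompact_closedBall 0 ρ) fun z hz => ?_
    by_contra h
    apply hz
    rw [mem_closedBall_zero_iff]
    exact (tn_ne h).le
  refine (continuous_tn ρ).integral_pos_of_hasCompactSupport_nonneg_nonzero hc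
    (fun z => tn_nonneg ρ z) (x := 0) ?_
  unfold tn
  rw [norm_zero, sub_zero, max_eq_right hρ.le]
  exact hρ.ne'

/-- the test function at the scale `r` around `β` -/
noncomputable def hr (ρ r : ℝ) (β z : E n) : ℝ := tn ρ (r⁻¹ • (z - β))

theorem continuous_hr (ρ r : ℝ) (β : E n) : Continuous (hr ρ r β) := by
  unfold hr
  exact (continuous_tn ρ).comp (by fun_prop)

theorem hr_ne {ρ r : ℝ} (hr0 : 0 < r) {β z : E n} (h : hr ρ r β z ≠ 0) : ‖z - β‖ < ρ * r := by
  have h1 := tn_ne h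
  rw [norm_smul, norm_inv, Real.norm_of_nonneg hr0.le, ← div_eq_inv_mul, div_lt_iff₀ hr0] at h1
  exact h1

theorem tsupport_hr {ρ r : ℝ} (hr0 : 0 < r) (β : E n) :
    tsupport (hr ρ r β) ⊆ closedBall β (ρ * r) := by
  refine closure_minimal ?_ isClosed_closedBall
  intro z hz
  rw [mem_closedBall, dist_eq_norm]
  exact (hr_ne hr0 hz).le

theorem int_hr {r : ℝ} (ρ : ℝ) (hr0 : 0 < r) (β : E n) :
    ∫ z, hr ρ r β z = r ^ n * ∫ z : E n, tn ρ z := by
  unfold hr
  rw [integral_sub_right_eq_self (fun z : E n => tn ρ (r⁻¹ • z)) β,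
    Measure.integral_comp_smul volume (fun z : E n => tn ρ z) r⁻¹, finrank_euclideanSpace_fin,
    inv_pow, inv_inv, abs_of_pos (pow_pos hr0 n), smul_eq_mul]

theorem hr_lip {ρ r : ℝ} (hr0 : 0 < r) (β z z' : E n) :
    |hr ρ r β z - hr ρ r β z'| ≤ r⁻¹ * ‖z - z'‖ := by
  unfold hr
  refine (tn_lip _ _ _).trans ?_
  rw [← smul_sub, sub_sub_sub_cancel_right, norm_smul, norm_inv, Real.norm_of_nonneg hr0.le]

/-! ### the linear part -/

theorem int_hr_affine {ρ r ℓ t : ℝ} (hr0 : 0 < r) (L : Mt n) (hdet : 0 < L.det)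
    (hℓ : 0 < ℓ) (hL : ∀ v, ℓ * ‖v‖ ≤ ‖L v‖) (hρ : ρ * r ≤ ℓ * t) (y₀ β : E n) :
    ∫ y in cube y₀ t, hr ρ r β (β + L (y - y₀)) * L.det = r ^ n * ∫ z : E n, tn ρ z := by
  have hinj : Function.Injective (fun y : E n => β + L (y - y₀)) := by
    intro y y' h
    have h1 : L (y - y₀) = L (y' - y₀) := add_left_cancel h
    have h2 : L (y - y') = 0 := by
      have : y - y' = (y - y₀) - (y' - y₀) := by abel
      rw [this, map_sub, h1, sub_self]
    have h3 := hL (y - y')
    rw [h2, norm_zero] at h3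
    have h4 : ‖y - y'‖ ≤ 0 := by
      by_contra hc
      have := mul_pos hℓ (not_le.1 hc)
      linarith
    exact sub_eq_zero.1 (norm_le_zero_iff.1 h4)
  have hLinj : Function.Injective L := by
    intro v v' h
    have h3 := hL (v - v')
    rw [map_sub, h, sub_self, norm_zero] at h3
    have h4 : ‖v - v'‖ ≤ 0 := by
      by_contra hc
      have := mul_pos hℓ (not_le.1 hc)
      linarith
    exact sub_eq_zero.1 (norm_le_zero_iff.1 h4)
  have hLsurj : Function.Surjective L := (LinearMap.injective_iff_surjective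
    (f := (L : E n →ₗ[ℝ] E n))).1 hLinj
  have himg : (fun y : E n => β + L (y - y₀)) '' univ = univ := by
    rw [image_univ, range_eq_univ]
    intro z
    obtain ⟨v, hv⟩ := hLsurj (z - β)
    refine ⟨v + y₀, ?_⟩
    show β + L (v + y₀ - y₀) = z
    rw [add_sub_cancel_right, hv]
    abel
  have hder : ∀ y ∈ (univ : Set (E n)),
      HasFDerivWithinAt (fun y : E n => β + L (y - y₀)) L univ y := by
    intro y _
    have h1 : HasFDerivAt (fun y : E n => L (y - y₀)) (L.comp (ContinuousLinearMap.id ℝ (E n))) y :=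
      (L.hasFDerivAt (x := y - y₀)).comp y ((hasFDerivAt_id y).sub_const y₀)
    rw [ContinuousLinearMap.comp_id] at h1
    exact (h1.const_add β).hasFDerivWithinAt
  have h5 := integral_image_eq_integral_abs_det_fderiv_smul volume MeasurableSet.univ hder
    hinj.injOn (hr ρ r β)
  rw [himg, setIntegral_univ, setIntegral_univ, int_hr ρ hr0 β] at h5
  rw [h5]
  rw [← setIntegral_univ (μ := volume) (f := fun y : E n => |L.det| • hr ρ r β (β + L (y - y₀)))]
  symm
  have h6 : ∀ y : E n, |L.det| • hr ρ r β (β + L (y - y₀)) = hr ρ r β (β + L (y - y₀)) * L.det := by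
    intro y
    rw [abs_of_pos hdet, smul_eq_mul, mul_comm]
  simp only [h6]
  refine setIntegral_eq_of_subset_of_forall_sdiff_eq_zero MeasurableSet.univ (subset_univ _) ?_
  rintro y ⟨_, hy⟩
  by_contra hne
  apply hy
  have h7 : hr ρ r β (β + L (y - y₀)) ≠ 0 := left_ne_zero_of_mul hne
  have h8 := hr_ne hr0 h7
  rw [add_sub_cancel_left] at h8
  have h9 : ℓ * ‖y - y₀‖ ≤ ℓ * t := ((hL _).trans h8.le).trans hρ
  have h10 : ‖y - y₀‖ ≤ t := le_of_mul_le_mul_left h9 hℓ
  intro i
  rw [← coord_sub]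
  exact (abs_coord_le _ i).trans h10

/-! ### topology -/

theorem ball_subset_image {K : ℝ} {f : E n → E n} {F : E n → Mt n} (h : Glo K f F)
    {y₀ β : E n} {t s : ℝ} (hc : cube y₀ t ⊆ ball 0 1)
    (hdis : ∀ y ∈ bcube y₀ t, s < ‖f y - β‖) (hmeet : ∃ y ∈ cube y₀ t, ‖f y - β‖ ≤ s) :
    closedBall β s ⊆ f '' {y | ∀ i, |y i - y₀ i| < t} := by
  have hfc : ContinuousOn f (ball 0 1) := h.sob.continuousOn isOpen_ball
  set U : Set (E n) := {y | ∀ i, |y i - y₀ i| < t} with hU
  have hUc : U ⊆ cube y₀ t := fun y hy i => (hy i).le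
  have himg : f '' U = ball 0 1 ∩ (Function.invFunOn f (ball 0 1)) ⁻¹' U := by
    ext z
    constructor
    · rintro ⟨y, hy, rfl⟩
      have hyb := hc (hUc hy)
      refine ⟨h.bij.mapsTo hyb, ?_⟩
      rw [mem_preimage, h.bij.injOn.leftInvOn_invFunOn hyb]
      exact hy
    · rintro ⟨hz, hz'⟩
      exact ⟨_, hz', h.bij.surjOn.rightInvOn_invFunOn hz⟩
  have hopen : IsOpen (f '' U) := by
    rw [himg]
    exact h.inv.isOpen_inter_preimage isOpen_ball (isOpen_ocube y₀ t)
  have hclosed : IsClosed (f '' cube y₀ t) :=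
    ((isCompact_cube y₀ t).image_of_continuousOn (hfc.mono hc)).isClosed
  have hdisj : Disjoint (f '' U) (f '' cube y₀ t)ᶜ := by
    rw [disjoint_compl_right_iff_subset]
    exact image_mono hUc
  refine ((convex_closedBall β s).isPreconnected).subset_left_of_subset_union hopen
    hclosed.isOpen_compl hdisj ?_ ?_
  · intro z hz
    by_cases hzc : z ∈ f '' cube y₀ t
    · left
      obtain ⟨y, hy, rfl⟩ := hzc
      refine ⟨y, ?_, rfl⟩
      refine cube_sub y₀ t hy fun hb => ?_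
      have := hdis y hb
      rw [mem_closedBall, dist_eq_norm] at hz
      linarith
    · right; exact hzc
  · obtain ⟨y, hy, hy'⟩ := hmeet
    refine ⟨f y, by rwa [mem_closedBall, dist_eq_norm], y, ?_, rfl⟩
    refine cube_sub y₀ t hy fun hb => ?_
    have := hdis y hb
    linarith

/-! ### the estimate at one scale -/

theorem scale {K d : ℝ} {f : E n → E n} {F : E n → Mt n} (h : Glo K f F)
    (hdc : Continuous (fun M : Mt n => M.det)) (hdb : ∀ M : Mt n, |M.det| ≤ ‖M‖ ^ n)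
    (hd : ∀ h : E n → ℝ, Continuous h → HasCompactSupport h → tsupport h ⊆ ball 0 1 →
      ∫ y in ball 0 1, h (f y) * (F y).det = d * ∫ z, h z)
    {L : Mt n} {ℓ r t σ D G : ℝ} {y₀ b : E n} (hdet : 0 < L.det) (hℓ : 0 < ℓ)
    (hL : ∀ v, ℓ * ‖v‖ ≤ ‖L v‖) (hr0 : 0 < r) (ht1 : r / 2 ≤ t) (ht2 : t ≤ r)
    (hc : cube y₀ r ⊆ ball 0 1) (hσ : σ < 3 / 8 * ℓ)
    (hb : ∀ y ∈ bcube y₀ t, ‖f y - L y - b‖ ≤ σ * r)
    (hD : ∫ y in cube y₀ t, ‖f y - L y - b‖ ≤ D * r ^ (n + 1))
    (hG : ∫ y in cube y₀ t, |(F y).det - L.det| ≤ G * r ^ n)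
    (hsm : ℓ / 8 * G + L.det * D < ∫ z : E n, tn (ℓ / 8) z) :
    |d - 1| * (∫ z : E n, tn (ℓ / 8) z) ≤ ℓ / 8 * G + L.det * D := by
  set ρ := ℓ / 8 with hρ
  have hρ0 : 0 < ρ := by positivity
  set I₀ := ∫ z : E n, tn ρ z with hI
  set β := b + L y₀ with hβ
  have hct : cube y₀ t ⊆ ball 0 1 := (cube_mono y₀ ht2).trans hc
  have hfc : ContinuousOn f (ball 0 1) := h.sob.continuousOn isOpen_ball
  have hcomp := isCompact_cube y₀ t
  have hmeas := measurableSet_cube y₀ t
  have hap := h.sob (cube y₀ t) hct hcomp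
  have hfL : ∀ y, β + L (y - y₀) = b + L y := by
    intro y; rw [hβ, map_sub]; abel
  -- integrability
  have hdi : IntegrableOn (fun y => (F y).det) (cube y₀ t) := by
    refine Integrable.mono' hap.int (hdc.comp_aestronglyMeasurable hap.meas)
      (Eventually.of_forall fun y => ?_)
    rw [Real.norm_eq_abs]
    exact hdb _
  have hdi2 : IntegrableOn (fun y => |(F y).det - L.det|) (cube y₀ t) :=
    (hdi.sub (integrableOn_const (hs := hcomp.measure_lt_top.ne))).abs
  have hhc : ContinuousOn (fun y => hr ρ r β (f y)) (cube y₀ t) :=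
    (continuous_hr ρ r β).comp_continuousOn (hfc.mono hct)
  have hnorm : ContinuousOn (fun y => ‖f y - L y - b‖) (cube y₀ t) :=
    (((hfc.mono hct).sub L.continuous.continuousOn).sub continuousOn_const).norm
  have hni : IntegrableOn (fun y => ‖f y - L y - b‖) (cube y₀ t) :=
    hnorm.integrableOn_compact hcomp
  have hhb : ∀ z : E n, |hr ρ r β z| ≤ ρ := fun z => by
    unfold hr
    rw [abs_of_nonneg (tn_nonneg _ _)]
    exact tn_le hρ0.le _
  have hJ1i : IntegrableOn (fun y => hr ρ r β (f y) * (F y).det) (cube y₀ t) := by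
    refine Integrable.mono' (hdi.abs.const_mul ρ)
      ((hhc.aestronglyMeasurable hmeas).mul hdi.1) (Eventually.of_forall fun y => ?_)
    rw [norm_mul, Real.norm_eq_abs, Real.norm_eq_abs]
    exact mul_le_mul_of_nonneg_right (hhb _) (abs_nonneg _)
  have hJ2i : IntegrableOn (fun y => hr ρ r β (β + L (y - y₀)) * L.det) (cube y₀ t) := by
    refine (Continuous.continuousOn ?_).integrableOn_compact hcomp
    refine Continuous.mul ((continuous_hr ρ r β).comp ?_) continuous_const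
    exact continuous_const.add (L.continuous.comp (continuous_id.sub continuous_const))
  have hJ2 : ∫ y in cube y₀ t, hr ρ r β (β + L (y - y₀)) * L.det = r ^ n * I₀ := by
    refine int_hr_affine hr0 L hdet hℓ hL ?_ y₀ β
    rw [hρ]
    nlinarith
  -- comparison
  have hdiff : |(∫ y in cube y₀ t, hr ρ r β (f y) * (F y).det) - r ^ n * I₀| ≤
      r ^ n * (ρ * G + L.det * D) := by
    rw [← hJ2, ← integral_sub hJ1i hJ2i]
    have h1 : |∫ y in cube y₀ t, (hr ρ r β (f y) * (F y).det -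
        hr ρ r β (β + L (y - y₀)) * L.det)| ≤
        ∫ y in cube y₀ t, (ρ * |(F y).det - L.det| + L.det * r⁻¹ * ‖f y - L y - b‖) := by
      rw [← Real.norm_eq_abs]
      refine norm_integral_le_of_norm_le ((hdi2.const_mul ρ).add (hni.const_mul _))
        (Eventually.of_forall fun y => ?_)
      have h2 : hr ρ r β (f y) * (F y).det - hr ρ r β (β + L (y - y₀)) * L.det =
          hr ρ r β (f y) * ((F y).det - L.det) +
          (hr ρ r β (f y) - hr ρ r β (β + L (y - y₀))) * L.det := by ring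
      rw [h2]
      refine (norm_add_le _ _).trans ?_
      rw [norm_mul, norm_mul, Real.norm_eq_abs, Real.norm_eq_abs, Real.norm_eq_abs,
        Real.norm_eq_abs, abs_of_pos hdet]
      refine add_le_add (mul_le_mul_of_nonneg_right (hhb _) (abs_nonneg _)) ?_
      have h3 := hr_lip (ρ := ρ) hr0 β (f y) (β + L (y - y₀))
      rw [hfL] at h3 ⊢
      have h4 : f y - (b + L y) = f y - L y - b := by abel
      rw [h4] at h3
      calc |hr ρ r β (f y) - hr ρ r β (b + L y)| * L.det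
          ≤ (r⁻¹ * ‖f y - L y - b‖) * L.det := mul_le_mul_of_nonneg_right h3 hdet.le
        _ = L.det * r⁻¹ * ‖f y - L y - b‖ := by ring
    refine h1.trans ?_
    rw [integral_add (hdi2.const_mul ρ) (hni.const_mul _), integral_const_mul, integral_const_mul]
    have h5 : L.det * r⁻¹ * ∫ y in cube y₀ t, ‖f y - L y - b‖ ≤ L.det * r⁻¹ * (D * r ^ (n + 1)) :=
      mul_le_mul_of_nonneg_left hD (by positivity)
    have h6 : ρ * ∫ y in cube y₀ t, |(F y).det - L.det| ≤ ρ * (G * r ^ n) :=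
      mul_le_mul_of_nonneg_left hG hρ0.le
    have h7 : L.det * r⁻¹ * (D * r ^ (n + 1)) = r ^ n * (L.det * D) := by
      rw [pow_succ]
      field_simp
    rw [h7] at h5
    nlinarith
  have hrn : 0 < r ^ n := pow_pos hr0 n
  have hJ1pos : 0 < ∫ y in cube y₀ t, hr ρ r β (f y) * (F y).det := by
    have h1 := (abs_le.1 hdiff).1
    nlinarith
  -- a point with values in the support
  have hmeet : ∃ y ∈ cube y₀ t, ‖f y - β‖ ≤ ρ * r := by
    by_contra hno
    push Not at hno
    have h1 : ∫ y in cube y₀ t, hr ρ r β (f y) * (F y).det = 0 := by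
      refine setIntegral_eq_zero_of_forall_eq_zero fun y hy => ?_
      by_contra hne
      have h2 := hr_ne hr0 (left_ne_zero_of_mul hne)
      have h3 := hno y hy
      linarith
    linarith
  have hdis : ∀ y ∈ bcube y₀ t, ρ * r < ‖f y - β‖ := by
    intro y hy
    obtain ⟨i, hi⟩ := hy.2
    have h1 : t ≤ ‖y - y₀‖ := by
      rw [← hi, ← coord_sub]
      exact abs_coord_le _ i
    have h2 : ℓ * t ≤ ‖L (y - y₀)‖ := (mul_le_mul_of_nonneg_left h1 hℓ.le).trans (hL _)
    have h3 : ‖L (y - y₀)‖ ≤ ‖f y - β‖ + ‖f y - L y - b‖ := by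
      have h4 : L (y - y₀) = (f y - β) - (f y - L y - b) := by
        rw [hβ, map_sub]; abel
      rw [h4]
      exact norm_sub_le _ _
    have h5 := hb y hy
    have h6 : ℓ * (r / 2) ≤ ℓ * t := mul_le_mul_of_nonneg_left ht1 hℓ.le
    rw [hρ]
    nlinarith
  have hB := ball_subset_image h hct hdis hmeet
  set U : Set (E n) := {y | ∀ i, |y i - y₀ i| < t} with hU
  have hUc : U ⊆ cube y₀ t := fun y hy i => (hy i).le
  have hBb : closedBall β (ρ * r) ⊆ ball 0 1 := by
    intro z hz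
    obtain ⟨y, hy, rfl⟩ := hB hz
    exact h.bij.mapsTo (hct (hUc hy))
  have h8 := hd (hr ρ r β) (continuous_hr ρ r β)
    (HasCompactSupport.of_support_subset_isCompact (isCompact_closedBall β (ρ * r))
      ((subset_tsupport _).trans (tsupport_hr hr0 β)))
    ((tsupport_hr hr0 β).trans hBb)
  rw [int_hr ρ hr0 β] at h8
  have h9 : ∫ y in ball 0 1, hr ρ r β (f y) * (F y).det =
      ∫ y in cube y₀ t, hr ρ r β (f y) * (F y).det := by
    refine setIntegral_eq_of_subset_of_forall_sdiff_eq_zero measurableSet_ball hct ?_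
    rintro y ⟨hy, hyc⟩
    by_contra hne
    apply hyc
    have h10 := hr_ne hr0 (left_ne_zero_of_mul hne)
    obtain ⟨y', hy', he⟩ := hB (by rw [mem_closedBall, dist_eq_norm]; exact h10.le :
      f y ∈ closedBall β (ρ * r))
    have h11 := h.bij.injOn (hct (hUc hy')) hy he
    rw [← h11]
    exact hUc hy'
  rw [h9] at h8
  rw [h8] at hdiff
  have h12 : d * (r ^ n * I₀) - r ^ n * I₀ = r ^ n * ((d - 1) * I₀) := by ring
  rw [h12, abs_mul, abs_of_pos hrn] at hdiff
  have h13 := le_of_mul_le_mul_left hdiff hrn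
  rw [abs_mul, abs_of_pos (tn_int hρ0)] at h13
  exact h13

/-! ### the derivative does not vanish almost everywhere -/

theorem not_zero (osc : OSCStmt) (chr : CHRStmt) (hn : 2 ≤ n) {K : ℝ} {f : E n → E n}
    {F : E n → Mt n} (h : Glo K f F) : ¬ ∀ᵐ y, y ∈ ball (0 : E n) 1 → F y = 0 := by
  intro hz
  obtain ⟨C, hC, hosc⟩ := osc n hn
  have hn0 : 0 < n := by omega
  have hsq : 0 < √(n : ℝ) := Real.sqrt_pos.2 (by exact_mod_cast hn0)
  set a : ℝ := (4 * √n)⁻¹ with ha
  have ha0 : 0 < a := by positivity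
  have hsub : cube (0 : E n) (2 * a) ⊆ ball 0 1 := by
    refine (cube_subset_closedBall 0 (by positivity)).trans ?_
    refine closedBall_subset_ball ?_
    rw [ha]
    have : √(n : ℝ) * (2 * (4 * √n)⁻¹) = 1 / 2 := by
      field_simp
      norm_num
    rw [this]
    norm_num
  have hcomp := isCompact_cube (0 : E n) (2 * a)
  have hap := h.sob _ hsub hcomp
  obtain ⟨t, ht1, ht2, ht⟩ := hosc n (fun j y => f y j - ((0 : Mt n) y) j)
    (fun j => grc (ps 0 j) f F) 0 a ha0 (fun j => aps_ps chr (by omega) hcomp hap 0 j)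
  have hzero : ∫ z in cube (0 : E n) (2 * a), ∑ j, ‖grc (ps (0 : Mt n) j) f F z‖ ^ n = 0 := by
    have h1 : ∀ᵐ z ∂(volume.restrict (cube (0 : E n) (2 * a))),
        ∑ j, ‖grc (ps (0 : Mt n) j) f F z‖ ^ n = 0 := by
      rw [ae_restrict_iff' (measurableSet_cube _ _)]
      filter_upwards [hz] with y hy hyc
      refine Finset.sum_eq_zero fun j _ => ?_
      have h2 := norm_grc_ps (0 : Mt n) j f F y
      rw [hy (hsub hyc), sub_zero, norm_zero] at h2
      have h3 : ‖grc (ps (0 : Mt n) j) f F y‖ = 0 := le_antisymm h2 (norm_nonneg _)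
      rw [h3, zero_pow (by omega)]
    rw [integral_congr_ae h1, integral_zero]
  have ht0 : 0 < t := lt_of_lt_of_le ha0 ht1
  set p : E n := 0 + EuclideanSpace.single (⟨0, hn0⟩ : Fin n) t with hp
  set q : E n := 0 + EuclideanSpace.single (⟨0, hn0⟩ : Fin n) (-t) with hq
  have hpb : p ∈ bcube 0 t := single_mem_bcube hn0 0 ht0.le (abs_of_pos ht0)
  have hqb : q ∈ bcube 0 t := single_mem_bcube hn0 0 ht0.le (by rw [abs_neg, abs_of_pos ht0])
  have hball : ∀ y ∈ bcube (0 : E n) t, y ∈ ball (0 : E n) 1 := fun y hy =>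
    hsub (cube_mono 0 ht2 (bcube_subset_cube 0 t hy))
  have hfpq : f p = f q := by
    ext j
    have h1 := ht j p hpb q hqb
    rw [hzero, mul_zero] at h1
    have h2 : |f p j - ((0 : Mt n) p) j - (f q j - ((0 : Mt n) q) j)| = 0 := by
      by_contra hne
      have := pow_pos (lt_of_le_of_ne (abs_nonneg _) (Ne.symm hne)) n
      linarith
    have h3 := abs_eq_zero.1 h2
    simp only [zero_apply, PiLp.zero_apply, sub_zero] at h3
    linarith
  have hpq := h.bij.injOn (hball p hpb) (hball q hqb) hfpq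
  have h4 : p ⟨0, hn0⟩ = q ⟨0, hn0⟩ := by rw [hpq]
  simp only [hp, hq, zero_add, PiLp.single_apply, if_true] at h4
  linarith

/-! ### assembly -/

theorem dg2_core (osc : OSCStmt) (chr : CHRStmt) (leb : LEBStmt) (pcr : PCRStmt) (adj : ADJStmt)
    (hn : 2 ≤ n) {K d : ℝ} (hK : 0 ≤ K) {f : E n → E n} {F : E n → Mt n} (h : Glo K f F)
    (hd : ∀ h : E n → ℝ, Continuous h → HasCompactSupport h → tsupport h ⊆ ball 0 1 →
      ∫ y in ball 0 1, h (f y) * (F y).det = d * ∫ z, h z) : d = 1 := by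
  have hn0 : 0 < n := by omega
  have hn1 : 1 ≤ n := by omega
  obtain ⟨C₃, hC₃, hadj, _, hdc, _, hdb, hdl⟩ := adj n hn1
  obtain ⟨C₁, hC₁, hosc⟩ := osc n hn
  obtain ⟨C₂, hC₂, hpcr⟩ := pcr n hn1
  -- the Lebesgue point
  have hleb := leb n (ball 0 1) F hn1 isOpen_ball fun C hC hC' => ⟨(h.sob C hC hC').meas,
    (h.sob C hC hC').int⟩
  obtain ⟨y₀, hy₀, hdet, hLeb⟩ : ∃ y₀ ∈ ball (0 : E n) 1, 0 < (F y₀).det ∧
      Tendsto (fun r : ℝ => (r ^ n)⁻¹ * ∫ x in cube y₀ r, ‖F x - F y₀‖ ^ n) (𝓝[>] 0) (𝓝 0) := by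
    by_contra hno
    push Not at hno
    apply not_zero osc chr hn h
    filter_upwards [hleb, h.qc] with y h1 h2 hy
    by_contra hne
    have h3 := h2 hy
    have h4 : 0 < ‖F y‖ ^ n := pow_pos (norm_pos_iff.2 hne) n
    have h5 : 0 < K * (F y).det := lt_of_lt_of_le h4 h3
    have h6 : 0 < (F y).det := pos_of_mul_pos_right h5 hK
    exact hno y hy h6 (h1 hy)
  set L := F y₀ with hLdef
  -- the lower bound of `L`
  set ℓ : ℝ := L.det / (‖adjV L‖ + 1) with hℓdef
  have hap0 : 0 < ‖adjV L‖ + 1 := by positivity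
  have hℓ : 0 < ℓ := div_pos hdet hap0
  have hL : ∀ v, ℓ * ‖v‖ ≤ ‖L v‖ := by
    intro v
    have h1 : L.det * ‖v‖ = ‖adjV L (L v)‖ := by
      rw [(hadj L v).2, norm_smul, Real.norm_of_nonneg hdet.le]
    have h2 : ‖adjV L (L v)‖ ≤ (‖adjV L‖ + 1) * ‖L v‖ := by
      refine ((adjV L).le_opNorm _).trans ?_
      exact mul_le_mul_of_nonneg_right (by linarith) (norm_nonneg _)
    rw [hℓdef, div_mul_eq_mul_div, div_le_iff₀ hap0, h1]
    linarith
  set I₀ := ∫ z : E n, tn (ℓ / 8) z with hI₀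
  have hI₀pos : 0 < I₀ := tn_int (by positivity)
  set A : ℝ := 2 * ‖L‖ with hA
  have hA0 : 0 ≤ A := by positivity
  set Γ : ℝ := ℓ / 8 * (C₃ * 2 ^ (n - 1) * (A ^ (n - 1) + 1)) + L.det * (2 * n * C₂) with hΓ
  have hΓ0 : 0 < Γ := by
    have : 0 < L.det * (2 * n * C₂) := by positivity
    have : 0 ≤ ℓ / 8 * (C₃ * 2 ^ (n - 1) * (A ^ (n - 1) + 1)) := by positivity
    linarith
  set A₀ : ℝ := √n ^ n * volume.real (ball (0 : E n) 1) with hA₀
  have hA₀0 : 0 ≤ A₀ := by positivity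
  -- main claim
  have main : ∀ ε : ℝ, 0 < ε → n * ε < 3 / 8 * ℓ → Γ * ε < I₀ → |d - 1| * I₀ ≤ Γ * ε := by
    intro ε hε hε1 hε2
    set e' : ℝ := ε / (2 * (A₀ + 1)) with he'
    have he'0 : 0 < e' := by positivity
    set τ : ℝ := min ε (min (ε ^ n / (C₁ * n)) (e' ^ (n - 1) * (ε / 2))) with hτ
    have hτ0 : 0 < τ := by
      refine lt_min hε (lt_min ?_ ?_)
      · positivity
      · positivity
    have hball : ∀ᶠ r : ℝ in 𝓝[>] 0, cube y₀ r ⊆ ball 0 1 := by
      obtain ⟨s, hs, hsb⟩ := nhds_basis_closedBall.mem_iff.1 (isOpen_ball.mem_nhds hy₀)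
      have hsq : 0 < √(n : ℝ) := Real.sqrt_pos.2 (by exact_mod_cast hn0)
      have h1 : Iio (s / √n) ∈ 𝓝[>] (0 : ℝ) :=
        mem_nhdsWithin_of_mem_nhds (Iio_mem_nhds (by positivity))
      filter_upwards [h1, self_mem_nhdsWithin] with r hr1 hr0
      refine (cube_subset_closedBall y₀ (le_of_lt hr0)).trans
        ((closedBall_subset_closedBall ?_).trans hsb)
      rw [mul_comm]
      exact ((lt_div_iff₀ hsq).1 hr1).le
    have hsmall : ∀ᶠ r : ℝ in 𝓝[>] 0,
        (r ^ n)⁻¹ * ∫ x in cube y₀ r, ‖F x - L‖ ^ n < τ := hLeb.eventually (Iio_mem_nhds hτ0)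
    obtain ⟨r, ⟨hcr, hT1⟩, hr0⟩ := ((hball.and hsmall).and self_mem_nhdsWithin).exists
    have hr0' : (0 : ℝ) < r := hr0
    have hrn : 0 < r ^ n := pow_pos hr0' n
    have hcomp := isCompact_cube y₀ r
    have hap := h.sob _ hcr hcomp
    -- integrals over the cube
    have hx1 : IntegrableOn (fun x => ‖F x - L‖ ^ n) (cube y₀ r) := by
      refine integrableOn_sub_pow (G := F) (F := fun _ => L) aestronglyMeasurable_const ?_
        hap.meas hap.int
      exact integrableOn_const (hs := hcomp.measure_lt_top.ne)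
    have hxm : AEStronglyMeasurable (fun x => ‖F x - L‖) (volume.restrict (cube y₀ r)) :=
      (hap.meas.sub aestronglyMeasurable_const).norm
    have hx0 : IntegrableOn (fun x => ‖F x - L‖) (cube y₀ r) := by
      refine Integrable.mono' (g := fun x => 1 + ((1 : ℝ) ^ (n - 1))⁻¹ * ‖F x - L‖ ^ n) ?_ hxm
        (Eventually.of_forall fun x => ?_)
      · exact (integrableOn_const (hs := hcomp.measure_lt_top.ne)).add (hx1.const_mul _)
      · rw [norm_norm]
        exact le_add_pow hn1 (norm_nonneg _) one_pos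
    set X := ∫ x in cube y₀ r, ‖F x - L‖ ^ n with hX
    set Y := ∫ x in cube y₀ r, ‖F x - L‖ with hY
    have hXτ : X < τ * r ^ n := by
      rwa [inv_mul_lt_iff₀ hrn, mul_comm] at hT1
    have hX1 : X ≤ ε * r ^ n := by
      have : τ ≤ ε := min_le_left _ _
      nlinarith
    have hX2 : C₁ * n * X ≤ (ε * r) ^ n := by
      have h1 : τ ≤ ε ^ n / (C₁ * n) := (min_le_right _ _).trans (min_le_left _ _)
      have h2 : X ≤ ε ^ n / (C₁ * n) * r ^ n := hXτ.le.trans (mul_le_mul_of_nonneg_right h1 hrn.le)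
      have h3 : 0 < C₁ * n := by positivity
      calc C₁ * n * X ≤ C₁ * n * (ε ^ n / (C₁ * n) * r ^ n) := mul_le_mul_of_nonneg_left h2 h3.le
        _ = (ε * r) ^ n := by rw [mul_pow]; field_simp
    have hX0 : 0 ≤ X := integral_nonneg fun x => by positivity
    have hY0 : 0 ≤ Y := integral_nonneg fun x => by positivity
    have hYε : Y ≤ ε * r ^ n := by
      have h1 : Y ≤ ∫ x in cube y₀ r, (e' + (e' ^ (n - 1))⁻¹ * ‖F x - L‖ ^ n) :=
        setIntegral_mono_on hx0 ((integrableOn_const (hs := hcomp.measure_lt_top.ne)).add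
          (hx1.const_mul _)) (measurableSet_cube _ _)
          fun x _ => le_add_pow hn1 (norm_nonneg _) he'0
      have hci0 : IntegrableOn (fun _ : E n => e') (cube y₀ r) :=
        integrableOn_const (hs := hcomp.measure_lt_top.ne)
      rw [integral_add hci0 (hx1.const_mul _),
        setIntegral_const, integral_const_mul, smul_eq_mul] at h1
      have h2 := vol_cube_le y₀ hr0'.le
      have h3 : volume.real (cube y₀ r) * e' ≤ ε / 2 * r ^ n := by
        have h4 : volume.real (cube y₀ r) * e' ≤ A₀ * r ^ n * e' :=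
          mul_le_mul_of_nonneg_right h2 he'0.le
        have h5 : A₀ * r ^ n * e' ≤ ε / 2 * r ^ n := by
          have h6 : A₀ * e' ≤ ε / 2 := by
            rw [he', mul_div_assoc', div_le_div_iff₀ (by positivity) two_pos]
            nlinarith
          nlinarith
        exact h4.trans h5
      have h4 : (e' ^ (n - 1))⁻¹ * X ≤ ε / 2 * r ^ n := by
        have h5 : τ ≤ e' ^ (n - 1) * (ε / 2) := (min_le_right _ _).trans (min_le_right _ _)
        have h6 : X ≤ e' ^ (n - 1) * (ε / 2) * r ^ n :=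
          hXτ.le.trans (mul_le_mul_of_nonneg_right h5 hrn.le)
        rw [inv_mul_le_iff₀ (by positivity)]
        linarith
      linarith
    -- oscillation
    have hrr : 2 * (r / 2) = r := by ring
    have haps : ∀ j, ApS (cube y₀ r) (fun y => f y j - (L y) j) (grc (ps L j) f F) := fun j =>
      aps_ps chr hn1 hcomp hap L j
    obtain ⟨t, ht1, ht2, ht⟩ := hosc n (fun j y => f y j - (L y) j)
      (fun j => grc (ps L j) f F) y₀ (r / 2) (by positivity) (fun j => by rw [hrr]; exact haps j)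
    rw [hrr] at ht2
    have ht0 : 0 < t := by linarith
    have hsumW : ∫ z in cube y₀ (2 * (r / 2)), ∑ j, ‖grc (ps L j) f F z‖ ^ n ≤ n * X := by
      rw [hrr]
      have h1 : ∫ z in cube y₀ r, ∑ j, ‖grc (ps L j) f F z‖ ^ n ≤
          ∫ z in cube y₀ r, (n : ℝ) * ‖F z - L‖ ^ n := by
        refine integral_mono_of_nonneg (Eventually.of_forall fun z => by positivity)
          (hx1.const_mul _) (Eventually.of_forall fun z => ?_)
        show ∑ j, ‖grc (ps L j) f F z‖ ^ n ≤ (n : ℝ) * ‖F z - L‖ ^ n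
        calc ∑ j, ‖grc (ps L j) f F z‖ ^ n ≤ ∑ _j : Fin n, ‖F z - L‖ ^ n :=
              Finset.sum_le_sum fun j _ =>
                pow_le_pow_left₀ (norm_nonneg _) (norm_grc_ps L j f F z) n
          _ = (n : ℝ) * ‖F z - L‖ ^ n := by simp
      rw [integral_const_mul] at h1
      exact h1
    set p : E n := y₀ + EuclideanSpace.single (⟨0, hn0⟩ : Fin n) t with hp
    have hpb : p ∈ bcube y₀ t := single_mem_bcube hn0 y₀ ht0.le (abs_of_pos ht0)
    set b : E n := f p - L p with hb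
    have hbj : ∀ (y : E n) (j : Fin n), (f y - L y - b) j =
        (f y j - (L y) j) - (f p j - (L p) j) := fun y j => rfl
    have hcoord : ∀ y ∈ bcube y₀ t, ∀ j, |(f y - L y - b) j| ≤ ε * r := by
      intro y hy j
      rw [hbj]
      have h1 := ht j y hy p hpb
      have h2 : |(f y j - (L y) j) - (f p j - (L p) j)| ^ n ≤ (ε * r) ^ n := by
        refine h1.trans ?_
        calc C₁ * ∫ z in cube y₀ (2 * (r / 2)), ∑ j, ‖grc (ps L j) f F z‖ ^ n ≤ C₁ * (n * X) :=
              mul_le_mul_of_nonneg_left hsumW hC₁.le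
          _ = C₁ * n * X := by ring
          _ ≤ (ε * r) ^ n := hX2
      exact (pow_le_pow_iff_left₀ (abs_nonneg _) (by positivity) (by omega)).1 h2
    have hbb : ∀ y ∈ bcube y₀ t, ‖f y - L y - b‖ ≤ n * ε * r := by
      intro y hy
      refine (norm_le_sum_abs _).trans ?_
      calc ∑ i, |(f y - L y - b) i| ≤ ∑ _i : Fin n, ε * r :=
            Finset.sum_le_sum fun i _ => hcoord y hy i
        _ = n * ε * r := by simp; ring
    -- the mean deviation
    have hct : cube y₀ t ⊆ cube y₀ r := cube_mono y₀ ht2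
    have hcompt := isCompact_cube y₀ t
    have hfc : ContinuousOn f (ball 0 1) := h.sob.continuousOn isOpen_ball
    have hcont : ContinuousOn (fun y => f y - L y - b) (cube y₀ t) :=
      ((hfc.mono (hct.trans hcr)).sub L.continuous.continuousOn).sub continuousOn_const
    have hci : ∀ j, IntegrableOn (fun y => |(f y - L y - b) j|) (cube y₀ t) := by
      intro j
      refine ContinuousOn.integrableOn_compact hcompt ?_
      have h1 : Continuous fun v : E n => |v j| := by fun_prop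
      exact h1.comp_continuousOn hcont
    have hDj : ∀ j, ∫ y in cube y₀ t, |(f y - L y - b) j| ≤ C₂ * (2 * ε) * r ^ (n + 1) := by
      intro j
      have h1 := hpcr (fun y => f y j - (L y) j) (grc (ps L j) f F) y₀ t (f p j - (L p) j) (ε * r)
        ht0 ((haps j).mono hcomp hct) (fun x hx => by
          have := hcoord x hx j
          rwa [hbj] at this)
      have h2 : ∫ y in cube y₀ t, |(f y - L y - b) j| =
          ∫ x in cube y₀ t, |f x j - (L x) j - (f p j - (L p) j)| := rfl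
      rw [h2]
      refine h1.trans ?_
      have h3 : ∫ x in cube y₀ t, ‖grc (ps L j) f F x‖ ≤ Y := by
        calc ∫ x in cube y₀ t, ‖grc (ps L j) f F x‖ ≤ ∫ x in cube y₀ t, ‖F x - L‖ :=
              integral_mono_of_nonneg (Eventually.of_forall fun z => norm_nonneg _)
                (hx0.mono_set hct) (Eventually.of_forall fun z => norm_grc_ps L j f F z)
          _ ≤ Y := setIntegral_mono_set hx0 (Eventually.of_forall fun z => norm_nonneg _)
              hct.eventuallyLE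
      have h4 : t ^ n * (ε * r) ≤ r ^ n * (ε * r) :=
        mul_le_mul_of_nonneg_right (pow_le_pow_left₀ ht0.le ht2 n) (by positivity)
      have h5 : t * ∫ x in cube y₀ t, ‖grc (ps L j) f F x‖ ≤ r * (ε * r ^ n) := by
        have h6 : 0 ≤ ∫ x in cube y₀ t, ‖grc (ps L j) f F x‖ :=
          integral_nonneg fun x => norm_nonneg _
        exact mul_le_mul ht2 (h3.trans hYε) h6 hr0'.le
      have h6 : t ^ n * (ε * r) + t * ∫ x in cube y₀ t, ‖grc (ps L j) f F x‖ ≤
          2 * ε * r ^ (n + 1) := by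
        rw [pow_succ]
        nlinarith
      calc C₂ * (t ^ n * (ε * r) + t * ∫ x in cube y₀ t, ‖grc (ps L j) f F x‖)
          ≤ C₂ * (2 * ε * r ^ (n + 1)) := mul_le_mul_of_nonneg_left h6 hC₂.le
        _ = C₂ * (2 * ε) * r ^ (n + 1) := by ring
    have hD : ∫ y in cube y₀ t, ‖f y - L y - b‖ ≤ (2 * n * C₂ * ε) * r ^ (n + 1) := by
      calc ∫ y in cube y₀ t, ‖f y - L y - b‖ ≤ ∫ y in cube y₀ t, ∑ j, |(f y - L y - b) j| :=
            integral_mono_of_nonneg (Eventually.of_forall fun z => norm_nonneg _)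
              (integrable_finsetSum _ fun j _ => hci j)
              (Eventually.of_forall fun z => norm_le_sum_abs _)
        _ = ∑ j, ∫ y in cube y₀ t, |(f y - L y - b) j| := integral_finsetSum _ fun j _ => hci j
        _ ≤ ∑ _j : Fin n, C₂ * (2 * ε) * r ^ (n + 1) := Finset.sum_le_sum fun j _ => hDj j
        _ = (2 * n * C₂ * ε) * r ^ (n + 1) := by simp; ring
    -- the determinant
    have hG : ∫ y in cube y₀ t, |(F y).det - L.det| ≤
        (C₃ * 2 ^ (n - 1) * (A ^ (n - 1) + 1) * ε) * r ^ n := by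
      have h1 : ∀ y, |(F y).det - L.det| ≤
          C₃ * 2 ^ (n - 1) * (A ^ (n - 1) * ‖F y - L‖ + ‖F y - L‖ ^ n) := by
        intro y
        have h2 := hdl (F y) L
        have h3 : ‖F y‖ + ‖L‖ ≤ A + ‖F y - L‖ := by
          have : ‖F y‖ ≤ ‖F y - L‖ + ‖L‖ := by
            have := norm_add_le (F y - L) L
            rwa [sub_add_cancel] at this
          rw [hA]; linarith
        have h4 : (‖F y‖ + ‖L‖) ^ (n - 1) ≤ (A + ‖F y - L‖) ^ (n - 1) :=
          pow_le_pow_left₀ (by positivity) h3 _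
        have h5 := sum_pow_bound hn1 (norm_nonneg (F y - L)) hA0
        calc |(F y).det - L.det| ≤ C₃ * (‖F y‖ + ‖L‖) ^ (n - 1) * ‖F y - L‖ := h2
          _ ≤ C₃ * (A + ‖F y - L‖) ^ (n - 1) * ‖F y - L‖ := by gcongr
          _ = C₃ * ((A + ‖F y - L‖) ^ (n - 1) * ‖F y - L‖) := by ring
          _ ≤ C₃ * (2 ^ (n - 1) * (A ^ (n - 1) * ‖F y - L‖ + ‖F y - L‖ ^ n)) :=
              mul_le_mul_of_nonneg_left h5 hC₃.le
          _ = C₃ * 2 ^ (n - 1) * (A ^ (n - 1) * ‖F y - L‖ + ‖F y - L‖ ^ n) := by ring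
      have hbound : IntegrableOn (fun y => C₃ * 2 ^ (n - 1) *
          (A ^ (n - 1) * ‖F y - L‖ + ‖F y - L‖ ^ n)) (cube y₀ r) :=
        ((hx0.const_mul _).add hx1).const_mul _
      calc ∫ y in cube y₀ t, |(F y).det - L.det| ≤
            ∫ y in cube y₀ t, C₃ * 2 ^ (n - 1) * (A ^ (n - 1) * ‖F y - L‖ + ‖F y - L‖ ^ n) :=
            integral_mono_of_nonneg (Eventually.of_forall fun z => abs_nonneg _)
              (hbound.mono_set hct) (Eventually.of_forall h1)
        _ ≤ ∫ y in cube y₀ r, C₃ * 2 ^ (n - 1) * (A ^ (n - 1) * ‖F y - L‖ + ‖F y - L‖ ^ n) :=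
            setIntegral_mono_set hbound (Eventually.of_forall fun z => by positivity)
              hct.eventuallyLE
        _ = C₃ * 2 ^ (n - 1) * (A ^ (n - 1) * Y + X) := by
            rw [integral_const_mul, integral_add (hx0.const_mul _) hx1, integral_const_mul]
        _ ≤ C₃ * 2 ^ (n - 1) * (A ^ (n - 1) * (ε * r ^ n) + ε * r ^ n) := by gcongr
        _ = (C₃ * 2 ^ (n - 1) * (A ^ (n - 1) + 1) * ε) * r ^ n := by ring
    have heq : ℓ / 8 * (C₃ * 2 ^ (n - 1) * (A ^ (n - 1) + 1) * ε) + L.det * (2 * n * C₂ * ε) =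
        Γ * ε := by rw [hΓ]; ring
    have hfin := scale h hdc hdb hd hdet hℓ hL hr0' (by linarith) ht2 hcr hε1 hbb hD hG
      (by rw [heq]; exact hε2)
    rw [heq] at hfin
    exact hfin
  -- conclusion
  by_contra hne
  have h1 : 0 < |d - 1| := abs_pos.2 (sub_ne_zero.2 hne)
  have h2 : 0 < |d - 1| * I₀ := mul_pos h1 hI₀pos
  set ε : ℝ := min (min (3 / 8 * ℓ / (2 * n)) (I₀ / (2 * Γ))) (|d - 1| * I₀ / (2 * Γ)) with hεd
  have hnpos : (0 : ℝ) < n := by exact_mod_cast hn0
  have hε : 0 < ε := by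
    refine lt_min (lt_min ?_ ?_) ?_ <;> positivity
  have hε1 : n * ε < 3 / 8 * ℓ := by
    have h3 : ε ≤ 3 / 8 * ℓ / (2 * n) := (min_le_left _ _).trans (min_le_left _ _)
    have h4 : n * ε ≤ n * (3 / 8 * ℓ / (2 * n)) := mul_le_mul_of_nonneg_left h3 hnpos.le
    have h5 : n * (3 / 8 * ℓ / (2 * n)) = 3 / 16 * ℓ := by field_simp; norm_num
    linarith
  have hε2 : Γ * ε < I₀ := by
    have h3 : ε ≤ I₀ / (2 * Γ) := (min_le_left _ _).trans (min_le_right _ _)
    have h4 : Γ * ε ≤ Γ * (I₀ / (2 * Γ)) := mul_le_mul_of_nonneg_left h3 hΓ0.le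
    have h5 : Γ * (I₀ / (2 * Γ)) = I₀ / 2 := by field_simp
    linarith
  have h3 := main ε hε hε1 hε2
  have h4 : ε ≤ |d - 1| * I₀ / (2 * Γ) := min_le_right _ _
  have h5 : Γ * ε ≤ Γ * (|d - 1| * I₀ / (2 * Γ)) := mul_le_mul_of_nonneg_left h4 hΓ0.le
  have h6 : Γ * (|d - 1| * I₀ / (2 * Γ)) = |d - 1| * I₀ / 2 := by field_simp
  linarith

theorem dg2 (osc : OSCStmt) (chr : CHRStmt) (leb : LEBStmt) (pcr : PCRStmt) (adj : ADJStmt) :
    Pool.Agent.SKQ.DG2Stmt := by
  intro n K d f F hn hK h hd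
  exact dg2_core osc chr leb pcr adj hn hK h hd

end Pool.Agent.SKQ.H53
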